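import Pool.Agent.Lib_MP_e457e7_g3.Final
import Pool.Agent.Lib_MP_e457e7_g3.Loc

/-!
MP_e457e7_co, Q1 for all `k ≥ 3`: for every finite multidigraph, every root, all capacities and
all `l`, if the capacities are at most `l` and there is a capacity-obeying packing of `k * l`
spanning arborescences, then there is a capacity-obeying packing of `l` `k`-arborescences.
-/

set_option autoImplicit false

namespace Pool.Agent.Results.MP_e457e7_co.KGe3

open Finset

theorem result :
    ∀ (V A : Type) [Fintype V] [Fintype A] [DecidableEq V] [DecidableEq A]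
      (tail head : A → V) (r0 : V) (c : A → ℕ) (k l : ℕ)
      (IsArb : Finset A → Prop),
      3 ≤ k →
      (∀ T : Finset A, IsArb T ↔
          ((∀ a ∈ T, head a ≠ r0) ∧
           (∀ v : V, v ≠ r0 → ∃! a : A, a ∈ T ∧ head a = v) ∧
           (∀ v : V, Relation.ReflTransGen
              (fun x y : V => ∃ a ∈ T, tail a = x ∧ head a = y) r0 v))) →
      (∀ a : A, c a ≤ l) →
      (∃ T : Fin (k * l) → Finset A,
          (∀ i, IsArb (T i)) ∧
          ∀ a : A, (Finset.univ.filter (fun i => a ∈ T i)).card ≤ c a) →
      ∃ B : Fin l → Fin k → Finset A,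
        (∀ i j, IsArb (B i j)) ∧
        (∀ i : Fin l, ∀ j j' : Fin k, j ≠ j' → Disjoint (B i j) (B i j')) ∧
        ∀ a : A, (Finset.univ.filter
            (fun p : Fin l × Fin k => a ∈ B p.1 p.2)).card ≤ c a := by
  intro V A _ _ _ _ tail head r0 c k l IsArb hk hIsArb hc hT
  exact G3.q1_of_local (Pool.Agent.LibE457g.localLemma hk) V A tail head r0 c l IsArb hIsArb hc hT

end Pool.Agent.Results.MP_e457e7_co.KGe3
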