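import Pool.Agent.Lib_MP_e457e7_f4.Pack

/-!
MP_e457e7_co, partial answer to Q1 in the case `k = 2`: the statement holds, for all `l`, whenever
at most four nodes other than the root have both an entering arc of capacity at least two and two
different in-neighbours.
-/

set_option autoImplicit false

namespace Pool.Agent.Results.MP_e457e7_co.KTwoFew

open Finset

theorem result :
    ∀ (V A : Type) [Fintype V] [Fintype A] [DecidableEq V] [DecidableEq A]
      (tail head : A → V) (r0 : V) (c : A → ℕ) (l : ℕ)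
      (IsArb : Finset A → Prop),
      (∀ T : Finset A, IsArb T ↔
          ((∀ a ∈ T, head a ≠ r0) ∧
           (∀ v : V, v ≠ r0 → ∃! a : A, a ∈ T ∧ head a = v) ∧
           (∀ v : V, Relation.ReflTransGen
              (fun x y : V => ∃ a ∈ T, tail a = x ∧ head a = y) r0 v))) →
      (∀ a : A, c a ≤ l) →
      ((Finset.univ.filter (fun v : V => v ≠ r0 ∧
          (∃ a : A, head a = v ∧ tail a ≠ v ∧ 2 ≤ c a) ∧
          ∃ a b : A, head a = v ∧ head b = v ∧ tail a ≠ v ∧ tail b ≠ v ∧ tail a ≠ tail b ∧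
            0 < c a ∧ 0 < c b)).card ≤ 4) →
      (∃ T : Fin (2 * l) → Finset A,
          (∀ i, IsArb (T i)) ∧
          ∀ a : A, (Finset.univ.filter (fun i => a ∈ T i)).card ≤ c a) →
      ∃ B : Fin l → Fin 2 → Finset A,
        (∀ i j, IsArb (B i j)) ∧
        (∀ i : Fin l, ∀ j j' : Fin 2, j ≠ j' → Disjoint (B i j) (B i j')) ∧
        ∀ a : A, (Finset.univ.filter
            (fun p : Fin l × Fin 2 => a ∈ B p.1 p.2)).card ≤ c a := by
  intro V A _ _ _ _ tail head r0 c l IsArb hIsArb hc hC hT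
  obtain ⟨T, hT, hTc⟩ := hT
  have hiff : ∀ T, IsArb T ↔ LibE457k.IsArb tail head r0 T := by
    intro T
    rw [hIsArb]
    exact ⟨fun h => ⟨h.1, h.2.1, h.2.2⟩, fun h => ⟨h.1, h.2, h.3⟩⟩
  obtain ⟨B, hB, hdisj, hBc⟩ := LibE457f.packing_four (tail := tail) (head := head) (r := r0)
    (c := c) (l := l) hc (by convert hC) T (fun i => (hiff _).1 (hT i)) hTc
  exact ⟨B, fun i j => (hiff _).2 (hB i j), hdisj, hBc⟩

end Pool.Agent.Results.MP_e457e7_co.KTwoFew
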